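import Pool.Agent.U840.BL.Tower

/-!
# Voisin's conjecture on exterior products for weighted Fermat varieties in all dimensions

Let `w = (w 0, …, w (N-1))` be weights dividing `m = ∑ w i`, and let `Y` be a smooth projective model of
the weighted Fermat hypersurface `X_w : ∑ y_i ^ (m / w i) = 0` of degree `m` in `ℙ(w)`, of dimension
`n = N - 2`. Then `h^{n,0}(Y) = 1` and `h^{j,0}(Y) = 0` for `0 < j < n`, as in Q1.

**Theorem.** Q1 holds for `Y`: for all zero-cycles `a, b` of degree zero

`a × b = (-1)^n b × a` in `CH_0(Y × Y) ⊗ ℚ`,

if `w` is one of the following weights: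

* in every dimension `n ≥ 1` and for every `2 ≤ N₀ ≤ n + 2` the weights
  `(1, …, 1, N₀, 2 N₀, 4 N₀, …, 2^(s-1) N₀)` with `N₀` weights one and `s = n + 2 - N₀`, `m = 2^s N₀`. For
  `s = 0` this is the Fermat hypersurface of degree `n + 2` in `ℙ^(n+1)`; for `s = 1` the double cover of
  `ℙ^n` branched along the Fermat hypersurface of degree `2 n + 2`; for `s > 1` towers of double covers;
* the 23 weights of Calabi-Yau threefolds in the list `cy3List`, for instance
  `X_9 ⊂ ℙ(1,1,1,3,3)`, `X_10 ⊂ ℙ(1,1,1,2,5)`, `X_14 ⊂ ℙ(1,2,2,2,7)`, `X_18 ⊂ ℙ(2,2,2,3,9)`.

The same follows for all quotients of `Y` by finite groups that fix the holomorphic `n`-form (their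
zero-cycles are the invariant ones). The cases with `m ≤ 2 n + 1` are contained in `FermatQuotients`
under MP_c59546_ag (the same question); all cases with `m ≥ 2 n + 2` are new, apart from those where the
transcendental motive is a part of the motive of a product of `n` elliptic curves or of a Kummer
surface (Voisin; for instance `n ≤ 2`, `m = 8, 12, 24` for threefolds).

Translation: `X_w` is the quotient of the Fermat hypersurface `X` of degree `m` in `ℙ^(n+1)` by the
diagonal matrices whose `i`-th entries are `w i`-th roots of unity, `y_i = x_i ^ (w i)`, so the theorem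
is about the zero-cycles on `X` that are invariant under these matrices (`WtFixed`).

Proof: by the starting files (`Pool/Agent/T2H37/PR`) the component of `a × b` for a pair of characters of
the group of diagonal matrices vanishes if one of them has a proper set of coordinates with the sum
zero, or if both can be cut in three blocks with opposite sums; the exchange of the factors acts on the
component of `(α, α)` by `(-1)^n`. So it is enough that two different characters are always opposite in
this sense. For the towers this is proved by folding modulo `m / 2` (which leads to the characters of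
the Fermat hypersurface of degree `N₀` in `ℙ^(N₀-1)`), for the list by a check of all pairs.
-/

set_option autoImplicit false

namespace Pool.Agent.Results.MP_ef4640_ag.WeightedFermatTowers

open Pool.Agent.T2H37.FK Pool.Agent.T2H37.PR Pool.Agent.U840.BL

/-- Voisin's conjecture on exterior products for weighted Fermat varieties. -/
theorem result (N m : ℕ) (hN : 3 ≤ N) (w : Fin N → ℕ) (hw : GoodWeights N m w)
    (a b : Fermat ℂ N m →₀ ℤ) (ha : (a.sum fun _ c => c) = 0) (hb : (b.sum fun _ c => c) = 0)
    (haw : WtFixed w a) (hbw : WtFixed w b) :
    ∃ j : ℕ, 0 < j ∧ j • (extProd (N := fun _ : Fin 2 => N) ![a, b] -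
      (-1 : ℤ) ^ N • extProd (N := fun _ : Fin 2 => N) ![b, a]) ∈
      Pool.Agent.T2H37.PR.RatEquivZero ℂ (fun _ : Fin 2 => N) m :=
  voisinGood hN hw a b ha hb haw hbw

end Pool.Agent.Results.MP_ef4640_ag.WeightedFermatTowers
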